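import Mathlib

/-!
Independent position colourings.
-/

set_option autoImplicit false

namespace Q127.MonoPos

open SimpleGraph

variable {V : Type}

/-- `X` is in general position: no shortest path between two distinct vertices of `X` contains a
third vertex of `X`. -/
def GeneralPosition (G : SimpleGraph V) (X : Set V) : Prop :=
  ∀ u ∈ X, ∀ v ∈ X, u ≠ v → ∀ p : G.Walk u v, p.length = G.dist u v →
    {w | w ∈ p.support} ∩ X = {u, v}

/-- `X` is in monophonic position: no induced path between two distinct vertices of `X` contains a
third vertex of `X`. An induced path is an embedding of the path graph on `k + 1` vertices as an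
induced subgraph. -/
def MonophonicPosition (G : SimpleGraph V) (X : Set V) : Prop :=
  ∀ u ∈ X, ∀ v ∈ X, u ≠ v → ∀ (k : ℕ) (f : pathGraph (k + 1) ↪g G),
    f 0 = u → f (Fin.last k) = v → Set.range f ∩ X = {u, v}

/-- `c` is an independent `P`-colouring: every colour class is independent and has the property
`P`. -/
def IsPositionColouring (P : SimpleGraph V → Set V → Prop) (G : SimpleGraph V) {k : ℕ}
    (c : V → Fin k) : Prop :=
  ∀ i, (∀ u ∈ c ⁻¹' {i}, ∀ v ∈ c ⁻¹' {i}, ¬ G.Adj u v) ∧ P G (c ⁻¹' {i})

/-- The least number of classes in an independent `P`-colouring of `G`. -/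
noncomputable def chi (P : SimpleGraph V → Set V → Prop) (G : SimpleGraph V) : ℕ :=
  sInf {k | ∃ c : V → Fin k, IsPositionColouring P G c}

end Q127.MonoPos
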