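import Pool.Agent.Q127.MonoPos.Defs

set_option autoImplicit false

namespace Q127.MonoPos

open SimpleGraph Finset

/-- nonempty subsets of `Fin s` -/
abbrev Sub (s : ℕ) : Type := {A : Finset (Fin s) // A.Nonempty}

/-- the incidence graph of the elements and the nonempty subsets of `Fin s` -/
def inc (s : ℕ) : SimpleGraph (Fin s ⊕ Sub s) where
  Adj u v := match u, v with
    | Sum.inl i, Sum.inr A => i ∈ A.1
    | Sum.inr A, Sum.inl i => i ∈ A.1
    | _, _ => False
  symm := ⟨fun u v h => by
    rcases u with i | A <;> rcases v with j | B <;> simp_all⟩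
  loopless := ⟨fun u h => by rcases u with i | A <;> exact h⟩

theorem adj_lr {s : ℕ} (i : Fin s) (A : Sub s) : (inc s).Adj (Sum.inl i) (Sum.inr A) ↔ i ∈ A.1 :=
  Iff.rfl

theorem adj_rl {s : ℕ} (i : Fin s) (A : Sub s) : (inc s).Adj (Sum.inr A) (Sum.inl i) ↔ i ∈ A.1 :=
  Iff.rfl

theorem adj_ll {s : ℕ} (i j : Fin s) : ¬ (inc s).Adj (Sum.inl i) (Sum.inl j) := fun h => h

theorem adj_rr {s : ℕ} (A B : Sub s) : ¬ (inc s).Adj (Sum.inr A) (Sum.inr B) := fun h => h

theorem path5_adj {s : ℕ} (C A C' : Sub s) (i j : Fin s) (hiC : i ∈ C.1) (hiA : i ∈ A.1)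
    (hjA : j ∈ A.1) (hjC' : j ∈ C'.1) (hjC : j ∉ C.1) (hiC' : i ∉ C'.1) (a b : Fin 5) :
    (inc s).Adj ((![Sum.inr C, Sum.inl i, Sum.inr A, Sum.inl j, Sum.inr C'] :
        Fin 5 → Fin s ⊕ Sub s) a)
      ((![Sum.inr C, Sum.inl i, Sum.inr A, Sum.inl j, Sum.inr C'] : Fin 5 → Fin s ⊕ Sub s) b) ↔
      (a.val + 1 = b.val ∨ b.val + 1 = a.val) := by
  fin_cases a <;> fin_cases b <;>
    simp [adj_lr, adj_rl, adj_ll, adj_rr, hiC, hiA, hjA, hjC', hjC, hiC']

/-- the path `C - i - A - j - C'` -/
def path5 {s : ℕ} (C A C' : Sub s) (i j : Fin s) (hiC : i ∈ C.1) (hiA : i ∈ A.1) (hjA : j ∈ A.1)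
    (hjC' : j ∈ C'.1) (hjC : j ∉ C.1) (hiC' : i ∉ C'.1) (hAC : A ≠ C) (hAC' : A ≠ C') :
    pathGraph (4 + 1) ↪g inc s where
  toFun := ![Sum.inr C, Sum.inl i, Sum.inr A, Sum.inl j, Sum.inr C']
  inj' := by
    have hij : i ≠ j := fun h => hjC (h ▸ hiC)
    have hCC' : C ≠ C' := fun h => hiC' (h ▸ hiC)
    intro a b hab
    fin_cases a <;> fin_cases b <;> first
      | rfl
      | (exfalso; simp at hab; done)
      | (exfalso; simp at hab; first
          | exact hij hab
          | exact hij hab.symm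
          | exact hCC' hab
          | exact hCC' hab.symm
          | exact hAC hab
          | exact hAC hab.symm
          | exact hAC' hab
          | exact hAC' hab.symm)
  map_rel_iff' := by
    intro a b
    rw [pathGraph_adj]
    exact path5_adj C A C' i j hiC hiA hjA hjC' hjC hiC' a b

/-- the nested property -/
theorem nested {s : ℕ} {X : Set (Fin s ⊕ Sub s)} (hX : MonophonicPosition (inc s) X)
    (C A C' : Sub s) (i j : Fin s) (hC : Sum.inr C ∈ X) (hA : Sum.inr A ∈ X)
    (hC' : Sum.inr C' ∈ X) (hiC : i ∈ C.1) (hiA : i ∈ A.1) (hjA : j ∈ A.1)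
    (hjC' : j ∈ C'.1) (hjC : j ∉ C.1) (hiC' : i ∉ C'.1) : False := by
  have hAC : A ≠ C := fun h => hjC (h ▸ hjA)
  have hAC' : A ≠ C' := fun h => hiC' (h ▸ hiA)
  have hCC' : C ≠ C' := fun h => hiC' (h ▸ hiC)
  have h := hX _ hC _ hC' (fun h => hCC' (Sum.inr_injective h)) 4
    (path5 C A C' i j hiC hiA hjA hjC' hjC hiC' hAC hAC') rfl rfl
  have h1 : Sum.inr A ∈ Set.range
      (path5 C A C' i j hiC hiA hjA hjC' hjC hiC' hAC hAC') ∩ X :=
    ⟨⟨2, rfl⟩, hA⟩
  rw [h] at h1
  rcases h1 with h1 | h1
  · exact hAC (Sum.inr_injective h1)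
  · exact hAC' (Sum.inr_injective h1)

open Classical in
/-- A monophonic position set contains at most `s` of the subsets. -/
theorem card_le {s : ℕ} {X : Set (Fin s ⊕ Sub s)} (hX : MonophonicPosition (inc s) X) :
    (univ.filter fun A : Sub s => Sum.inr A ∈ X).card ≤ s := by
  -- the members containing `i`
  let N : Fin s → Finset (Sub s) := fun i => univ.filter fun A : Sub s => Sum.inr A ∈ X ∧ i ∈ A.1
  have hmin : ∀ A : Sub s, ∃ i ∈ A.1, ∀ j ∈ A.1, (N i).card ≤ (N j).card := fun A =>
    Finset.exists_min_image A.1 (fun i => (N i).card) A.2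
  choose m hm hmm using hmin
  have hinj : ∀ A : Sub s, Sum.inr A ∈ X → ∀ B : Sub s, Sum.inr B ∈ X → m A = m B → A.1 ⊆ B.1 := by
    intro A hA B hB hAB j hj
    by_contra hjB
    -- `N j` is a proper subset of `N (m A)`
    have hlt : (N j).card < (N (m A)).card := by
      apply Finset.card_lt_card
      rw [Finset.ssubset_iff_subset_ne]
      constructor
      · intro C hC
        simp only [N, Finset.mem_filter, Finset.mem_univ, true_and] at hC ⊢
        refine ⟨hC.1, ?_⟩
        by_contra hmC
        exact nested hX B A C (m A) j hB hA hC.1 (hAB ▸ hm B) (hm A) hj hC.2 hjB hmC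
      · intro h
        have : B ∈ N (m A) := by
          simp only [N, Finset.mem_filter, Finset.mem_univ, true_and]
          exact ⟨hB, hAB ▸ hm B⟩
        rw [← h] at this
        simp only [N, Finset.mem_filter, Finset.mem_univ, true_and] at this
        exact hjB this.2
    exact absurd (hmm A j hj) (not_le.mpr hlt)
  calc (univ.filter fun A : Sub s => Sum.inr A ∈ X).card
      ≤ (univ : Finset (Fin s)).card := by
        apply Finset.card_le_card_of_injOn m (fun _ _ => Finset.mem_coe.mpr (Finset.mem_univ _))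
        intro A hA B hB hAB
        have hA' : Sum.inr A ∈ X := by simpa using hA
        have hB' : Sum.inr B ∈ X := by simpa using hB
        exact Subtype.ext (Finset.Subset.antisymm (hinj A hA' B hB' hAB)
          (hinj B hB' A hA' hAB.symm))
    _ = s := by simp

theorem card_sub (s : ℕ) : Fintype.card (Sub s) = 2 ^ s - 1 := by
  classical
  have h : Fintype.card (Sub s) = (univ.filter fun A : Finset (Fin s) => A.Nonempty).card :=
    Fintype.card_subtype _
  rw [h]
  have h1 : (univ.filter fun A : Finset (Fin s) => A.Nonempty) = univ.erase ∅ := by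
    ext A
    simp [Finset.nonempty_iff_ne_empty]
  rw [h1, Finset.card_erase_of_mem (Finset.mem_univ _)]
  simp

theorem chi_nonempty {V : Type} [Fintype V] (P : SimpleGraph V → Set V → Prop)
    (G : SimpleGraph V) (hP : ∀ X : Set V, X.Subsingleton → P G X) :
    ∃ c : V → Fin (chi P G), IsPositionColouring P G c := by
  classical
  have hne : {k | ∃ c : V → Fin k, IsPositionColouring P G c}.Nonempty := by
    refine ⟨Fintype.card V, Fintype.equivFin V, fun i => ?_⟩
    have hs : (Fintype.equivFin V ⁻¹' {i} : Set V).Subsingleton := by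
      intro a ha b hb
      exact (Fintype.equivFin V).injective (ha.trans hb.symm)
    refine ⟨fun u hu v hv huv => ?_, hP _ hs⟩
    rw [hs hu hv] at huv
    exact G.loopless.irrefl _ huv
  exact Nat.sInf_mem hne

theorem mono_subsingleton {V : Type} (G : SimpleGraph V) (X : Set V) (hX : X.Subsingleton) :
    MonophonicPosition G X := fun _ hu _ hv huv => absurd (hX hu hv) huv

theorem chi_inc (s : ℕ) : 2 ^ s - 1 ≤ s * chi MonophonicPosition (inc s) := by
  classical
  obtain ⟨c, hc⟩ := chi_nonempty MonophonicPosition (inc s) (mono_subsingleton _)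
  rw [← card_sub, ← Finset.card_univ]
  have h := Finset.card_le_mul_card_image_of_maps_to (s := (univ : Finset (Sub s)))
    (t := (univ : Finset (Fin (chi MonophonicPosition (inc s)))))
    (f := fun A => c (Sum.inr A)) (fun _ _ => Finset.mem_univ _) s (fun i _ => by
      refine le_trans (le_of_eq ?_) (card_le (hc i).2)
      congr 1
      ext A
      simp)
  simpa using h

theorem chi_compl (s : ℕ) : 2 ^ s - 1 ≤ chi MonophonicPosition (inc s)ᶜ := by
  classical
  obtain ⟨c, hc⟩ := chi_nonempty MonophonicPosition (inc s)ᶜ (mono_subsingleton _)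
  rw [← card_sub]
  have hinj : Function.Injective fun A : Sub s => c (Sum.inr A) := by
    intro A B hAB
    by_contra hne
    refine (hc (c (Sum.inr A))).1 (Sum.inr A) rfl (Sum.inr B) hAB.symm ?_
    rw [SimpleGraph.compl_adj]
    exact ⟨fun h => hne (Sum.inr_injective h), adj_rr A B⟩
  simpa using Fintype.card_le_of_injective _ hinj

theorem card_V (s : ℕ) : Fintype.card (Fin s ⊕ Sub s) = s + (2 ^ s - 1) := by
  rw [Fintype.card_sum, card_sub, Fintype.card_fin]

end Q127.MonoPos
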